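import Pool.Agent.Run7.h415.LV.Main

set_option autoImplicit false

/-!
# MP_ecd12e_nt: large values of convolutions of short sequences

Let `b = c_1 * ... * c_J` be the Dirichlet convolution of `J` sequences bounded by `1` and supported
on `[1, L]`, let `D(t) = ∑_{N ≤ n ≤ 2N} b_n n^{it}` and let `W ⊂ [0, T]`, `N ≤ T ≤ N^A`, be a finite
`1`-separated set (for instance a set of integers) with `|D(t)| > N^σ` for `t ∈ W`, `1/2 < σ ≤ 1`.
Assume `N L² ≤ T²`; this holds if `L ≤ N^{1/2}`. Then, for every `ε > 0`,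

`|W| ≤ C N^ε L^{(2σ-1)(2-2σ)} T^{2-2σ}`,

and, if `σ ≥ 2/3`, also

`|W| ≤ C N^ε L^{(3σ-2)(2-2σ)/(2σ-1)} T^{(1-σ)/(2σ-1)}`,

with `C = C(J, A, σ, ε)`. So for short factors the bound `|W| ⪅ T^{2-2σ}`, the weaker form of
Montgomery's conjecture in the problem file (it implies the density hypothesis if it holds for all
`b`), is true up to a power of `L`. For general `b` the powers of `D` give this with `L = N` only.

Proof: let `Λ` be the length of the product (the variables are first restricted to dyadic boxes, and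
the condition `N ≤ n ≤ 2N` is removed by a weight function and a summation over the levels of
`|D_1 ⋯ D_J|`). For every `t ∈ W` one removes the factors from `D_1 ⋯ D_J` one by one, keeping
`log |∏_{j ∈ A} D_j(t)|` at least proportional to the length. So some power `D^k` times a subproduct
has length just above, or just below, the length `T` (or `T^{1/(4σ-2)}`) for which the mean value
theorem (or the inequality of Halász, Montgomery and Huxley) is efficient; there are `2^J`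
subproducts. The better one of the two lengths loses at most the stated power of `L`.
-/

namespace Pool.Agent.Results.MP_ecd12e_nt.LargeValuesOfProducts

open Finset

/-- `D(t) = ∑_{N ≤ n ≤ 2N} b_n n^{it}` -/
noncomputable def D (N : ℕ) (b : ℕ → ℂ) (t : ℝ) : ℂ :=
  ∑ n ∈ Icc N (2 * N), b n * Complex.exp (Complex.I * t * Real.log n)

/-- `∑_{n_1 ⋯ n_J = n, n_j ≤ L} c_1(n_1) ⋯ c_J(n_J)` -/
noncomputable def conv {J : ℕ} (L : ℕ) (c : Fin J → ℕ → ℂ) (n : ℕ) : ℂ :=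
  ∑ f ∈ (Fintype.piFinset fun _ : Fin J => Icc 1 L).filter (fun f => ∏ j, f j = n), ∏ j, c j (f j)

theorem result (J : ℕ) (A σ ε : ℝ) (hJ : 1 ≤ J) (hA : 1 ≤ A) (hσ : 1 / 2 < σ) (hσ1 : σ ≤ 1)
    (hε : 0 < ε) :
    ∃ C : ℝ, 0 < C ∧ ∀ (N L : ℕ) (T : ℝ) (c : Fin J → ℕ → ℂ) (W : Finset ℝ),
      1 ≤ N → 1 ≤ L → (N : ℝ) ≤ T → T ≤ (N : ℝ) ^ A → (N : ℝ) * (L : ℝ) ^ 2 ≤ T ^ 2 →
      (∀ j n, ‖c j n‖ ≤ 1) → (∀ t ∈ W, 0 ≤ t ∧ t ≤ T) →
      (∀ t ∈ W, ∀ u ∈ W, t ≠ u → 1 ≤ |t - u|) →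
      (∀ t ∈ W, (N : ℝ) ^ σ < ‖D N (conv L c) t‖) →
      (W.card : ℝ) ≤ C * (N : ℝ) ^ ε * ((L : ℝ) ^ ((2 * σ - 1) * (2 - 2 * σ)) * T ^ (2 - 2 * σ)) ∧
      (2 / 3 ≤ σ → (W.card : ℝ) ≤ C * (N : ℝ) ^ ε *
        ((L : ℝ) ^ ((3 * σ - 2) * (2 - 2 * σ) / (2 * σ - 1)) * T ^ ((1 - σ) / (2 * σ - 1)))) := by
  obtain ⟨C1, hC1, h1⟩ := Run7.h415.LV.conv J hJ (fun σ => 2 * σ - 1) Run7.h415.LV.lv_one A σ ε 1 hA hε
    one_pos hσ.le hσ1 (fun s hs _ => ⟨by linarith, by linarith⟩)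
  have h2 : ∃ C : ℝ, 0 < C ∧ (2 / 3 ≤ σ → ∀ (N L : ℕ) (T : ℝ) (c : Fin J → ℕ → ℂ) (W : Finset ℝ),
      (∀ s, σ ≤ s → s ≤ 1 → (N : ℝ) ^ (s - σ) * Run7.h415.LV.Bnd (fun σ => 6 * σ - 4) L T s ≤
        Run7.h415.LV.Bnd (fun σ => 6 * σ - 4) L T σ) →
      1 ≤ N → 1 ≤ L → 1 ≤ T → T ≤ (N : ℝ) ^ A → (∀ j n, ‖c j n‖ ≤ 1) →
      (∀ t ∈ W, 0 ≤ t ∧ t ≤ T) → Pool.Agent.TH705.DL.Sep W →
      (∀ t ∈ W, (N : ℝ) ^ σ < ‖∑ n ∈ Icc N (2 * N),
        Run7.h415.MQP.cvf (fun _ : Fin J => L) c n * Pool.Agent.W200.MR.pw t n‖) →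
      (W.card : ℝ) ≤ C * (N : ℝ) ^ ε * Run7.h415.LV.Bnd (fun σ => 6 * σ - 4) L T σ) := by
    by_cases h : 2 / 3 ≤ σ
    · obtain ⟨C, hC, hh⟩ := Run7.h415.LV.conv J hJ (fun σ => 6 * σ - 4) Run7.h415.LV.lv_two A σ ε
        (4 * σ - 2) hA hε (by linarith) hσ.le hσ1 (fun s hs _ => ⟨by linarith, by linarith⟩)
      exact ⟨C, hC, fun _ => hh⟩
    · exact ⟨1, one_pos, fun h' => absurd h' h⟩
  obtain ⟨C2, hC2, h2⟩ := h2
  refine ⟨max C1 C2, lt_max_of_lt_left hC1, ?_⟩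
  intro N L T c W hN hL hNT hTN hNL hc hW hsep hWU
  have hN1 : (1 : ℝ) ≤ N := by exact_mod_cast hN
  have hL1 : (1 : ℝ) ≤ L := by exact_mod_cast hL
  have hT : 1 ≤ T := hN1.trans hNT
  have hN0 : (0 : ℝ) < N := by linarith
  have hL0 : (0 : ℝ) < L := by linarith
  have hT0 : 0 < T := by linarith
  have hLT : (L : ℝ) ≤ T := by
    apply le_of_sq_le_sq _ hT0.le
    nlinarith [sq_nonneg (L : ℝ)]
  have e : ∀ t, ∑ n ∈ Icc N (2 * N), Run7.h415.MQP.cvf (fun _ : Fin J => L) c n *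
      Pool.Agent.W200.MR.pw t n = D N (conv L c) t := by
    intro t
    unfold D
    refine sum_congr rfl fun n _ => ?_
    congr 1
    unfold Pool.Agent.W200.MR.pw
    congr 1
    push_cast
    ring
  have hWU' : ∀ t ∈ W, (N : ℝ) ^ σ < ‖∑ n ∈ Icc N (2 * N), Run7.h415.MQP.cvf (fun _ : Fin J => L) c n *
      Pool.Agent.W200.MR.pw t n‖ := fun t ht => by rw [e]; exact hWU t ht
  constructor
  · have h := h1 N L T c W (fun s hs _ => Run7.h415.LV.mono_one N L T σ s hN1 hL1 hT hNL hσ.le hs) hN hL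
      hT hTN hc hW hsep hWU'
    have e1 : Run7.h415.LV.Bnd (fun σ => 2 * σ - 1) L T σ =
        (L : ℝ) ^ ((2 * σ - 1) * (2 - 2 * σ)) * T ^ (2 - 2 * σ) := by
      unfold Run7.h415.LV.Bnd
      simp only
      rw [show 2 * σ - 1 + (2 - 2 * σ) = 1 by ring, div_one, div_one]
    rw [e1] at h
    refine h.trans ?_
    have := le_max_left C1 C2
    gcongr
  · intro hσ2
    have h := h2 hσ2 N L T c W
      (fun s hs hs1 => Run7.h415.LV.mono_two N L T σ s hN1 hL1 hNT hLT hσ hs hs1) hN hL hT hTN hc hW hsep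
      hWU'
    have e1 : Run7.h415.LV.Bnd (fun σ => 6 * σ - 4) L T σ =
        (L : ℝ) ^ ((3 * σ - 2) * (2 - 2 * σ) / (2 * σ - 1)) * T ^ ((1 - σ) / (2 * σ - 1)) := by
      unfold Run7.h415.LV.Bnd
      simp only
      have h0 : 2 * σ - 1 ≠ 0 := by
        have : 0 < 2 * σ - 1 := by linarith
        exact this.ne'
      congr 2
      · rw [show 6 * σ - 4 + (2 - 2 * σ) = 2 * (2 * σ - 1) by ring]
        field_simp
        ring
      · rw [show 6 * σ - 4 + (2 - 2 * σ) = 2 * (2 * σ - 1) by ring]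
        field_simp
    rw [e1] at h
    refine h.trans ?_
    have := le_max_right C1 C2
    gcongr

end Pool.Agent.Results.MP_ecd12e_nt.LargeValuesOfProducts
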