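import Mathlib
import Pool.Agent.Run7.h175.MV.Core

set_option autoImplicit false

/-!
# Montgomery's large value estimate for almost all polynomial twists

Let `|b_n| ≤ 1`. For a polynomial `f` without constant term, of degree at most `d` and with
coefficients in `{0, ..., Q - 1}`, `Q ≥ (d + 1) (2 N)^d`, put
`D_f(t) = ∑_{N ≤ n ≤ 2N} b_n e(f(n) / Q) n^{it}`. For all but at most `N^{-η} Q^d` of the `Q^d`
polynomials `f` the following holds for all `T`, `σ` and `W` at once: if `N ≤ T ≤ N^A` and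
`|D_f(t)| > N^σ` for all `t ∈ W ⊂ ℤ ∩ [0, T]`, then
`|W| ≤ C N^{η + ε} T N^{(d + 1)(1 - 2σ)}`; in particular `|W| ≤ C N^{2 - 2σ + η + ε}` as long as
`T ≤ N^{1 + d (2σ - 1)}`.

Proof: the mean over `f` of `∫_0^T |D_f(t)|^{2(d+1)} dt` is at most `(T + N) N^{d+1}` times a power
of `log N`: Newton's identities show that the numbers `n_0, ..., n_d` with given sums of the `j`-th
powers, `j ≤ d`, and given product are determined up to order, and for given power sums the products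
belonging to distinct solutions are well spaced. Gallagher's inequality gives `1`-separated points.
-/

namespace Pool.Agent.Results.MP_ecd12e_nt.PolynomialTwists

open Finset

/-- `e(f(n)/Q)` for the polynomial `f = f_0 X + f_1 X^2 + ... + f_{d-1} X^d`. -/
noncomputable def phase (Q : ℕ) {d : ℕ} (f : Fin d → Fin Q) (n : ℕ) : ℂ :=
  Complex.exp (2 * Real.pi * Complex.I * ((∑ j, ((f j).val : ℂ) * (n : ℂ) ^ (j.val + 1)) / Q))

/-- The twisted Dirichlet polynomial `D_f(t) = ∑_{N ≤ n ≤ 2N} b_n e(f(n)/Q) n^{it}`. -/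
noncomputable def D (Q : ℕ) {d : ℕ} (N : ℕ) (b : ℕ → ℂ) (f : Fin d → Fin Q) (t : ℝ) : ℂ :=
  ∑ n ∈ Icc N (2 * N),
    b n * phase Q f n * Complex.exp (((t * Real.log (n : ℝ) : ℝ) : ℂ) * Complex.I)

lemma D_eq (Q d N : ℕ) (hN : 1 ≤ N) (b : ℕ → ℂ) (f : Fin d → Fin Q) (t : ℝ) :
    D Q N b f t = Run7.h175.MV.DD Q d (2 * N) (Run7.h175.MV.dy N b) f t := by
  rw [Run7.h175.MV.DD_dy Q d N hN]
  unfold D
  refine Finset.sum_congr rfl fun n _ => ?_
  congr 2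
  push_cast
  ring

theorem result (d : ℕ) (A ε : ℝ) (hε : 0 < ε) :
    ∃ C : ℝ, 0 < C ∧ ∀ N Q : ℕ, 1 ≤ N → (d + 1) * (2 * N) ^ d ≤ Q →
      ∀ b : ℕ → ℂ, (∀ n, ‖b n‖ ≤ 1) → ∀ η : ℝ,
        ∃ E : Finset (Fin d → Fin Q), (E.card : ℝ) ≤ (N : ℝ) ^ (-η) * (Q : ℝ) ^ d ∧
          ∀ f ∉ E, ∀ T : ℝ, (N : ℝ) ≤ T → T ≤ (N : ℝ) ^ A → ∀ (σ : ℝ) (W : Finset ℤ),
            (∀ t ∈ W, 0 ≤ (t : ℝ) ∧ (t : ℝ) ≤ T ∧ (N : ℝ) ^ σ < ‖D Q N b f t‖) →
            (W.card : ℝ) ≤ C * (N : ℝ) ^ (η + ε) * T * (N : ℝ) ^ ((d + 1) * (1 - 2 * σ)) ∧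
            (T ≤ (N : ℝ) ^ (1 + d * (2 * σ - 1)) →
              (W.card : ℝ) ≤ C * (N : ℝ) ^ (2 - 2 * σ + η + ε)) := by
  obtain ⟨C, hC, h⟩ := Run7.h175.MV.coreN d A ε hε
  have hC0 : 0 < C := by linarith
  refine ⟨C, hC0, ?_⟩
  intro N Q hN hQ b hb η
  have hNr : (0 : ℝ) < (N : ℝ) := by exact_mod_cast hN
  obtain ⟨E, hE1, hE2⟩ := h N Q hN hQ b hb ((N : ℝ) ^ η) (Real.rpow_pos_of_pos hNr _)
  refine ⟨E, ?_, ?_⟩
  · rw [Real.rpow_neg hNr.le, inv_mul_eq_div, le_div_iff₀ (Real.rpow_pos_of_pos hNr _)]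
    exact hE1
  intro f hf T hT1 hT2 σ W hW
  have hT0 : 0 < T := by linarith
  have hfirst : (W.card : ℝ) ≤
      C * (N : ℝ) ^ (η + ε) * T * (N : ℝ) ^ ((d + 1) * (1 - 2 * σ)) := by
    have h1 := hE2 f hf T hT1 hT2 (W.image fun t : ℤ => (t : ℝ)) (by
      intro t ht
      rw [Finset.mem_image] at ht
      obtain ⟨u, hu, rfl⟩ := ht
      exact ⟨(hW u hu).1, (hW u hu).2.1⟩) (by
      intro t ht u hu htu
      rw [Finset.mem_image] at ht hu
      obtain ⟨t', _, rfl⟩ := ht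
      obtain ⟨u', _, rfl⟩ := hu
      have h2 : t' ≠ u' := fun h => htu (by rw [h])
      have h3 : 1 ≤ |t' - u'| := Int.one_le_abs (sub_ne_zero.mpr h2)
      exact_mod_cast h3)
    rw [Finset.sum_image (fun t _ u _ htu => Int.cast_injective htu)] at h1
    have h2 : (W.card : ℝ) * ((N : ℝ) ^ σ) ^ (2 * (d + 1)) ≤
        ∑ t ∈ W, ‖Run7.h175.MV.DD Q d (2 * N) (Run7.h175.MV.dy N b) f (t : ℝ)‖ ^ (2 * (d + 1)) := by
      rw [← nsmul_eq_mul]
      refine Finset.card_nsmul_le_sum _ _ _ fun t ht => ?_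
      rw [← D_eq Q d N hN]
      exact pow_le_pow_left₀ (Real.rpow_nonneg hNr.le _) (hW t ht).2.2.le _
    have h3 : ((N : ℝ) ^ σ) ^ (2 * (d + 1)) = (N : ℝ) ^ (2 * (d + 1) * σ) := by
      rw [← Real.rpow_natCast, ← Real.rpow_mul hNr.le]
      congr 1
      push_cast
      ring
    rw [h3] at h2
    have h4 : (N : ℝ) ^ (2 * (d + 1) * σ) * (N : ℝ) ^ (-(2 * (d + 1) * σ)) = 1 := by
      rw [← Real.rpow_add hNr]
      simp
    have h5 := mul_le_mul_of_nonneg_right (h2.trans h1)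
      (Real.rpow_nonneg hNr.le (-(2 * (d + 1) * σ)))
    rw [mul_assoc, h4, mul_one] at h5
    refine h5.trans (le_of_eq ?_)
    rw [← Real.rpow_natCast (N : ℝ) (d + 1), Real.rpow_add hNr]
    have h6 : (N : ℝ) ^ ((d + 1) * (1 - 2 * σ)) =
        (N : ℝ) ^ ((d + 1 : ℕ) : ℝ) * (N : ℝ) ^ (-(2 * (d + 1) * σ)) := by
      rw [← Real.rpow_add hNr]
      congr 1
      push_cast
      ring
    rw [h6]
    ring
  refine ⟨hfirst, fun hT => hfirst.trans ?_⟩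
  have h1 : C * (N : ℝ) ^ (η + ε) * T * (N : ℝ) ^ ((d + 1) * (1 - 2 * σ)) ≤
      C * (N : ℝ) ^ (η + ε) * (N : ℝ) ^ (1 + d * (2 * σ - 1)) *
        (N : ℝ) ^ ((d + 1) * (1 - 2 * σ)) := by
    gcongr
  refine h1.trans (le_of_eq ?_)
  rw [mul_assoc, mul_assoc, ← Real.rpow_add hNr, ← Real.rpow_add hNr]
  congr 2
  ring

end Pool.Agent.Results.MP_ecd12e_nt.PolynomialTwists
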