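import Mathlib
import Pool.Agent.Run7.h794.QT.E

/-!
# Large values of almost all quadratic twists of Dirichlet polynomials

For odd `d` let `(n/d)` be the Jacobi symbol, a real character modulo `d`. For all `A`, `B`, `D` and `σ > 1/2` there are
`K` and `N₀` such that for all `N ≥ N₀` and every family `F` of at most `N ^ B` sequences `(b_n)` bounded by one, in EVERY
interval of length `P ≥ N ^ K` all but at most `P / N ^ B` of the odd `d` (primes or not) satisfy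
`|∑_{N ≤ n ≤ 2N} b_n (n/d) e(f(n)) n ^ (it)| ≤ N ^ σ` for all `b` in `F`, ALL real polynomials `f` of degree at most `D` and
all real `t`, `|t| ≤ N ^ A`: the sets `W` of Montgomery's conjecture are empty.
-/

set_option autoImplicit false

namespace Pool.Agent.Results.MP_ecd12e_nt.QuadraticTwistsLargeValues

open Finset

/-- `D(t) = ∑_{N ≤ n ≤ 2N} b_n (n/d) e(θ_0 n + ... + θ_{D-1} n ^ D) n ^ (it)`, `(n/d)` the Jacobi symbol -/
noncomputable def poly {D : ℕ} (b : ℕ → ℂ) (d N : ℕ) (θ : Fin D → ℝ) (t : ℝ) : ℂ :=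
  ∑ n ∈ Icc N (2 * N), b n * ((jacobiSym (n : ℤ) d : ℤ) : ℂ) *
    Complex.exp (2 * Real.pi * Complex.I * ∑ j, (θ j : ℂ) * (n : ℂ) ^ (j.val + 1)) * (n : ℂ) ^ ((t : ℂ) * Complex.I)

theorem result (A B D : ℕ) (σ : ℝ) (hσ : 1 / 2 < σ) : ∃ K N₀ : ℕ, ∀ N : ℕ, N₀ ≤ N → ∀ x P : ℕ, N ^ K ≤ P →
    ∀ F : Finset (ℕ → ℂ), F.card ≤ N ^ B → (∀ b ∈ F, ∀ n, ‖b n‖ ≤ 1) →
    ∃ Bad ⊆ Ioc x (x + P), Bad.card * N ^ B ≤ P ∧ ∀ d ∈ Ioc x (x + P), Odd d → d ∉ Bad → ∀ b ∈ F,
      ∀ (θ : Fin D → ℝ) (t : ℝ), |t| ≤ (N : ℝ) ^ A → ‖poly b d N θ t‖ ≤ (N : ℝ) ^ σ := by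
  classical
  set u : ℝ := (σ - 1 / 2) / 2 with hu
  have hu0 : 0 < u := by
    rw [hu]
    linarith
  obtain ⟨K, C, hC, h⟩ := Pool.Agent.Run7.h794.QT.main A B D hu0
  have hlim : Filter.Tendsto (fun N : ℕ => (N : ℝ) ^ u) Filter.atTop Filter.atTop :=
    (tendsto_rpow_atTop hu0).comp (tendsto_natCast_atTop_atTop (R := ℝ))
  obtain ⟨N₁, h1⟩ := Filter.eventually_atTop.1 (hlim.eventually_ge_atTop (C * 2 ^ (1 / 2 + u)))
  refine ⟨2 * K, max N₁ 2, fun N hN x P hP F hF ha => ?_⟩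
  have hN1 : N₁ ≤ N := (le_max_left _ _).trans hN
  have hN2 : 2 ≤ N := (le_max_right _ _).trans hN
  have hNr : (2 : ℝ) ≤ N := by exact_mod_cast hN2
  have hN0 : (0 : ℝ) < N := by linarith
  set cut : (ℕ → ℂ) → ℕ → ℂ := fun b n => if N ≤ n then b n else 0 with hcut
  obtain ⟨Bad, h2, h3, h4⟩ := h (2 * N) (by omega) x P (by
    calc (2 * N) ^ K ≤ (N * N) ^ K := Nat.pow_le_pow_left (Nat.mul_le_mul_right N hN2) K
      _ = N ^ (2 * K) := by rw [← sq, ← pow_mul]
      _ ≤ P := hP) (F.image cut) (by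
    calc (F.image cut).card ≤ F.card := card_image_le
      _ ≤ N ^ B := hF
      _ ≤ (2 * N) ^ B := Nat.pow_le_pow_left (by omega) B) (by
    intro a ha' n
    obtain ⟨b, hb, rfl⟩ := mem_image.1 ha'
    simp only [hcut]
    split_ifs
    · exact ha b hb n
    · simp)
  refine ⟨Bad, h2, ?_, fun d hd hodd hdB b hb θ t ht => ?_⟩
  · exact le_trans (Nat.mul_le_mul_left _ (Nat.pow_le_pow_left (by omega) B)) h3
  · have h5 := h4 d hd hodd hdB (cut b) (mem_image_of_mem _ hb) (2 * N) le_rfl θ t (ht.trans (by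
      push_cast
      exact pow_le_pow_left₀ hN0.le (by linarith) A))
    have h6 : Pool.Agent.Run7.h794.QT.twist (cut b) d (2 * N) θ t = poly b d N θ t := by
      unfold Pool.Agent.Run7.h794.QT.twist poly
      have e1 : Icc N (2 * N) = (Icc 1 (2 * N)).filter (fun n => N ≤ n) := by
        ext n
        simp only [mem_Icc, mem_filter]
        omega
      rw [e1, sum_filter]
      apply sum_congr rfl
      intro n _
      simp only [hcut]
      split_ifs
      · rfl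
      · simp
    rw [h6] at h5
    refine h5.trans ?_
    push_cast
    rw [Real.mul_rpow (by norm_num) hN0.le, ← mul_assoc]
    have e2 : (N : ℝ) ^ σ = (N : ℝ) ^ u * (N : ℝ) ^ (1 / 2 + u) := by
      rw [← Real.rpow_add hN0]
      congr 1
      rw [hu]
      ring
    rw [e2]
    exact mul_le_mul_of_nonneg_right (h1 N hN1) (Real.rpow_nonneg hN0.le _)

end Pool.Agent.Results.MP_ecd12e_nt.QuadraticTwistsLargeValues
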