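import Pool.Agent.Run7.h844.RP.PwU7

/-!
# The large values of a Dirichlet polynomial avoid the neighbourhoods of almost all values of a generalised polynomial at primes

Method: exponential sums over primes with the phase of a generalised polynomial: derivative bounds uniform in the
coefficients, van der Corput differencing of all orders, bilinear sums, Vaughan's identity (after `Pool.Agent.H895R3.NK`,
`Pool.Agent.H373R2.T7`), with a power saving at all real frequencies between two powers (library `Pool.Agent.Run7.h844.RP`).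
The frequencies `log (m / m')` with `m, m' ≤ N ^ s` are in this range, so the moment of order `2 s` over the primes is the
diagonal one, for every fixed `s` and arbitrary coefficients; a net for the windows.
-/

set_option autoImplicit false

namespace Pool.Agent.Results.MP_ecd12e_nt.ValuesAtPrimes

open Finset

/-- The generalised polynomial `∑ a x * t ^ x`, `x ∈ F`, with real exponents and coefficients. -/
noncomputable def genPoly (F : Finset ℝ) (a : ℝ → ℝ) (t : ℝ) : ℝ := ∑ x ∈ F, a x * t ^ x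

/-- `c` is the largest exponent; it is positive and not an integer, and its coefficient is not zero. -/
def Leading (F : Finset ℝ) (a : ℝ → ℝ) (c : ℝ) : Prop :=
  c ∈ F ∧ (∀ x ∈ F, x ≤ c) ∧ 0 < c ∧ (∀ m : ℕ, c ≠ m) ∧ a c ≠ 0

/-- the primes in `(X, 2 X]` -/
def P (X : ℕ) : Finset ℕ := (Ioc X (2 * X)).filter Nat.Prime

/-- `D(t) = ∑_{N ≤ n ≤ 2N} b(n) n ^ (it)` -/
noncomputable def D (b : ℕ → ℂ) (N : ℕ) (t : ℝ) : ℂ := ∑ n ∈ Icc N (2 * N), b n * (n : ℂ) ^ ((t : ℂ) * Complex.I)

open Classical in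
/-- Let `f` be a generalised polynomial whose largest exponent `c` is positive and not an integer. For all `σ > 1 / 2`, `A ≥ 0`
and `h ≥ 0` there are `κ > 0` and `N₀` such that for all large `X`, all real `z`, all `N₀ ≤ N ≤ X ^ κ`, ALL coefficients with
`|b n| ≤ 1` and EVERY set `W` of real numbers (or integers) with `|D(t)| ≥ N ^ σ` for all `t ∈ W`: at most `N ^ (-h)` times
the number of all the primes `X < p ≤ 2 X` have a point of `W` at a distance of at most `N ^ A` from `f(p) + z`. -/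
theorem result (F : Finset ℝ) (f : ℝ → ℝ) (c : ℝ) (hF : Leading F f c) (σ A h : ℝ) (hσ : 1 / 2 < σ) (hA : 0 ≤ A)
    (hh : 0 ≤ h) : ∃ κ : ℝ, 0 < κ ∧ ∃ N₀ X₀ : ℕ, ∀ X : ℕ, X₀ ≤ X → ∀ z : ℝ, ∀ N : ℕ, N₀ ≤ N → (N : ℝ) ≤ (X : ℝ) ^ κ →
      ∀ b : ℕ → ℂ, (∀ n, ‖b n‖ ≤ 1) → ∀ W : Set ℝ, (∀ t ∈ W, (N : ℝ) ^ σ ≤ ‖D b N t‖) →
      (((P X).filter fun p : ℕ => ∃ t ∈ W, |t - (genPoly F f p + z)| ≤ (N : ℝ) ^ A).card : ℝ) ≤
        (N : ℝ) ^ (-h) * (P X).card := by
  obtain ⟨hcF, hmax, hc, hn, ha⟩ := hF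
  obtain ⟨κ, hκ, N₀, X₀, _, h1⟩ := Pool.Agent.Run7.h844.RP.Wy.primes_dq F c hcF hn hc hmax f ha (σ - 1 / 2) A h
    (by linarith) hA hh
  refine ⟨κ, hκ, N₀, X₀, fun X hX z N hN hNX b hb W hW => ?_⟩
  refine le_trans ?_ (h1 X hX z N hN hNX b hb)
  apply Nat.cast_le.2
  apply card_le_card
  intro p hp
  rw [mem_filter] at hp ⊢
  obtain ⟨hp1, t, htW, ht⟩ := hp
  refine ⟨hp1, t - (genPoly F f p + z), ht, ?_⟩
  have h2 : Pool.Agent.Run7.h844.RP.ph F f p + z + (t - (genPoly F f p + z)) = t := by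
    have : Pool.Agent.Run7.h844.RP.ph F f p = genPoly F f p := rfl
    rw [this]
    ring
  rw [h2, show 1 / 2 + (σ - 1 / 2) = σ by ring]
  exact hW t htW

end Pool.Agent.Results.MP_ecd12e_nt.ValuesAtPrimes
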